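import Pool.Agent.Helper32.ExpN.Forms
import Pool.Agent.Helper32.ExpN.Params

/-!
# Values of sparse integer polynomials at `e`

`|P(e)| ≥ exp(-C (d + log(1 + H))^A)` for all nonzero integer polynomials of degree `≤ d` and height `≤ H` with at most
`k + 1` nonzero coefficients, `A`, `C` depending on `k` only.
-/

set_option autoImplicit false

namespace Pool.Agent.Helper95.KX

open Polynomial Finset Pool.Agent.Helper32.ExpN
open scoped Nat

/-- measure for sparse polynomials -/
def SMeas (θ : ℝ) : Prop :=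
  ∀ k : ℕ, ∃ (A : ℕ) (C : ℝ), 0 < C ∧ ∀ (d H : ℕ) (P : ℤ[X]), P ≠ 0 → P.natDegree ≤ d → P.support.card ≤ k + 1 →
    (∀ i, |P.coeff i| ≤ H) → Real.exp (-(C * ((d : ℝ) + Real.log (1 + H)) ^ A)) ≤ |Polynomial.aeval θ P|

/-- the bound with a given prime -/
theorem core (K G H : ℕ) (hG : 1 ≤ G) (hH : 1 ≤ H) (P : ℤ[X]) (hP : P ≠ 0) (hdeg : P.natDegree ≤ G)
    (hcard : P.support.card + 1 ≤ K) (hcoef : ∀ i, |P.coeff i| ≤ H) (p : ℕ) (hp : p.Prime) (hGp : G < p)
    (hbig : Real.log 2 + Real.log K + Real.log H + G + K * p * Real.log G ≤ p * Real.log p - p - Real.log p) :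
    Real.exp (-(K * p * Real.log (K * p) + K * p * Real.log (1 + G))) / 2 ≤ |Polynomial.aeval (Real.exp 1) P| := by
  classical
  set S : Finset ℕ := insert 0 P.support with hS
  have hScard : S.card ≤ K := (Finset.card_insert_le _ _).trans hcard
  have hSpos : 0 < S.card := Finset.card_pos.2 ⟨0, Finset.mem_insert_self _ _⟩
  obtain ⟨n, hn⟩ : ∃ n, S.card = n + 1 := ⟨S.card - 1, by omega⟩
  set j : Fin (n + 1) → ℕ := fun i => S.orderEmbOfFin hn i with hj
  have hinj : Function.Injective j := (S.orderEmbOfFin hn).injective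
  have hmono : StrictMono j := (S.orderEmbOfFin hn).strictMono
  have hmap : Finset.map (S.orderEmbOfFin hn).toEmbedding Finset.univ = S := Finset.map_orderEmbOfFin_univ S hn
  have hmem : ∀ i, j i ∈ S := fun i => Finset.orderEmbOfFin_mem S hn i
  have hsurj : ∀ s ∈ S, ∃ i, j i = s := by
    intro s hs
    rw [← hmap, Finset.mem_map] at hs
    obtain ⟨i, _, hi⟩ := hs
    exact ⟨i, hi⟩
  have hj0 : j 0 = 0 := by
    obtain ⟨i, hi⟩ := hsurj 0 (Finset.mem_insert_self _ _)
    have h1 := hmono.monotone (Fin.zero_le i)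
    omega
  have hjG : ∀ m, j m ≤ G := by
    intro m
    have h1 := hmem m
    rw [hS, Finset.mem_insert] at h1
    rcases h1 with h1 | h1
    · rw [h1]; exact Nat.zero_le _
    · exact (Polynomial.le_natDegree_of_mem_supp _ h1).trans hdeg
  obtain ⟨T, hdet, hT0, hT⟩ := hermite_forms j hinj hj0 p hp G hjG hGp
  have hH0 : (0 : ℝ) < H := by exact_mod_cast hH
  have hG0 : (0 : ℝ) < G := by exact_mod_cast hG
  have hG1 : (1 : ℝ) ≤ G := by exact_mod_cast hG
  have hp0 : (0 : ℝ) < p := by exact_mod_cast hp.pos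
  have hK1 : 1 ≤ K := by omega
  have hK0 : (0 : ℝ) < K := by exact_mod_cast hK1
  have hnK : n + 1 ≤ K := by omega
  have hfac : (0 : ℝ) < ((p - 1)! : ℝ) := by exact_mod_cast Nat.factorial_pos _
  have hfac1 : (1 : ℝ) ≤ ((p - 1)! : ℝ) := by exact_mod_cast Nat.factorial_pos _
  -- the value of the polynomial
  have hval : Polynomial.aeval (Real.exp 1) P = ∑ m : Fin (n + 1), (P.coeff (j m) : ℝ) * Real.exp (j m) := by
    have h1 : Polynomial.aeval (Real.exp 1) P = ∑ i ∈ S, (P.coeff i : ℝ) * Real.exp i := by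
      rw [Polynomial.aeval_def, Polynomial.eval₂_eq_sum, Polynomial.sum_def]
      have h2 : ∑ i ∈ P.support, (algebraMap ℤ ℝ) (P.coeff i) * Real.exp 1 ^ i =
          ∑ i ∈ P.support, (P.coeff i : ℝ) * Real.exp i := by
        refine Finset.sum_congr rfl fun i _ => ?_
        rw [← Real.exp_nat_mul, mul_one]
        rfl
      rw [h2, hS]
      refine Finset.sum_subset (Finset.subset_insert _ _) fun i _ hi => ?_
      rw [Polynomial.notMem_support_iff.1 hi]
      simp
    rw [h1]
    conv_lhs => rw [← hmap]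
    rw [Finset.sum_map]
    rfl
  -- a row which is not orthogonal
  have hrow : ∃ i, ∑ m, T i m * P.coeff (j m) ≠ 0 := by
    by_contra hcon
    push Not at hcon
    have hv : T.mulVec (fun m => P.coeff (j m)) = 0 := by
      ext i
      exact hcon i
    have h0 := Matrix.eq_zero_of_mulVec_eq_zero hdet hv
    apply hP
    ext s
    rw [Polynomial.coeff_zero]
    by_cases hs : s ∈ P.support
    · obtain ⟨i, hi⟩ := hsurj s (Finset.mem_insert_of_mem hs)
      rw [← hi]
      exact congrFun h0 i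
    · exact Polynomial.notMem_support_iff.1 hs
  obtain ⟨i, hi⟩ := hrow
  have h1 : (1 : ℝ) ≤ |((∑ m, T i m * P.coeff (j m) : ℤ) : ℝ)| := by
    exact_mod_cast Int.one_le_abs hi
  have e1 : ((∑ m, T i m * P.coeff (j m) : ℤ) : ℝ) =
      ∑ m, (P.coeff (j m) : ℝ) * ((T i m : ℝ) - Real.exp (j m) * T i 0) + T i 0 * Polynomial.aeval (Real.exp 1) P := by
    rw [hval, Finset.mul_sum, ← Finset.sum_add_distrib]
    push_cast
    refine Finset.sum_congr rfl fun m _ => ?_
    ring
  rw [e1] at h1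
  have h2 := h1.trans (abs_add_le _ _)
  rw [abs_mul (T i 0 : ℝ)] at h2
  set E : ℝ := Real.exp G * (G : ℝ) ^ ((n + 1) * p) / ((p - 1)! : ℝ) with hE
  have hE0 : 0 ≤ E := by positivity
  have h3 : |∑ m, (P.coeff (j m) : ℝ) * ((T i m : ℝ) - Real.exp (j m) * T i 0)| ≤ K * (H * E) := by
    refine (Finset.abs_sum_le_sum_abs _ _).trans ?_
    have h4 : ∀ m ∈ (Finset.univ : Finset (Fin (n + 1))),
        |(P.coeff (j m) : ℝ) * ((T i m : ℝ) - Real.exp (j m) * T i 0)| ≤ H * E := by
      intro m _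
      rw [abs_mul]
      refine mul_le_mul ?_ (hT i m) (abs_nonneg _) hH0.le
      exact_mod_cast hcoef (j m)
    refine (Finset.sum_le_sum h4).trans ?_
    rw [Finset.sum_const, Finset.card_univ, Fintype.card_fin, nsmul_eq_mul]
    refine mul_le_mul_of_nonneg_right ?_ (by positivity)
    exact_mod_cast hnK
  have h4 : K * (H * E) ≤ 1 / 2 := by
    have h5 : E ≤ Real.exp G * (G : ℝ) ^ (K * p) / ((p - 1)! : ℝ) := by
      apply div_le_div_of_nonneg_right _ hfac.le
      apply mul_le_mul_of_nonneg_left _ (Real.exp_pos _).le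
      exact pow_le_pow_right₀ hG1 (Nat.mul_le_mul_right p hnK)
    have h6 : K * (H * E) ≤ K * (H * (Real.exp G * (G : ℝ) ^ (K * p) / ((p - 1)! : ℝ))) :=
      mul_le_mul_of_nonneg_left (mul_le_mul_of_nonneg_left h5 hH0.le) hK0.le
    refine h6.trans ?_
    have h7 := log_factorial_pred_ge p hp.one_le
    have hgp : (0 : ℝ) < (G : ℝ) ^ (K * p) := by positivity
    have h8 : Real.log (2 * (K * (H * (Real.exp G * (G : ℝ) ^ (K * p))))) ≤ Real.log ((p - 1)! : ℝ) := by
      rw [Real.log_mul (by norm_num) (by positivity), Real.log_mul hK0.ne' (by positivity),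
        Real.log_mul hH0.ne' (by positivity), Real.log_mul (Real.exp_pos _).ne' hgp.ne', Real.log_exp, Real.log_pow]
      push_cast
      linarith
    have h9 := (Real.log_le_log_iff (by positivity) hfac).1 h8
    have e2 : K * (H * (Real.exp G * (G : ℝ) ^ (K * p) / ((p - 1)! : ℝ))) =
        K * (H * (Real.exp G * (G : ℝ) ^ (K * p))) / ((p - 1)! : ℝ) := by ring
    rw [e2, div_le_iff₀ hfac]
    linarith
  have h5 : 1 / 2 ≤ |(T i 0 : ℝ)| * |Polynomial.aeval (Real.exp 1) P| := by linarith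
  -- the size of `T i 0`
  have h6 : |(T i 0 : ℝ)| ≤ Real.exp (K * p * Real.log (K * p) + K * p * Real.log (1 + G)) := by
    have h7 : (((n + 1) * p)! : ℝ) * (1 + (G : ℝ)) ^ ((n + 1) * p) / ((p - 1)! : ℝ) ≤
        ((K * p)! : ℝ) * (1 + (G : ℝ)) ^ (K * p) := by
      refine (div_le_self (by positivity) hfac1).trans ?_
      apply mul_le_mul _ _ (by positivity) (by positivity)
      · exact_mod_cast Nat.factorial_le (Nat.mul_le_mul_right p hnK)
      · exact pow_le_pow_right₀ (by linarith) (Nat.mul_le_mul_right p hnK)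
    refine ((hT0 i).trans h7).trans ?_
    have hf2 : (0 : ℝ) < ((K * p)! : ℝ) := by exact_mod_cast Nat.factorial_pos _
    apply le_exp_of_log_le (by positivity)
    rw [Real.log_mul hf2.ne' (by positivity), Real.log_pow]
    have h8 := log_factorial_le (K * p)
    push_cast at h8 ⊢
    linarith
  have h7 : 1 / 2 ≤ Real.exp (K * p * Real.log (K * p) + K * p * Real.log (1 + G)) *
      |Polynomial.aeval (Real.exp 1) P| := h5.trans (mul_le_mul_of_nonneg_right h6 (abs_nonneg _))
  rw [Real.exp_neg]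
  set F := Real.exp (K * p * Real.log (K * p) + K * p * Real.log (1 + G)) with hF
  have hF0 : 0 < F := Real.exp_pos _
  calc F⁻¹ / 2 = F⁻¹ * (1 / 2) := by ring
    _ ≤ F⁻¹ * (F * |Polynomial.aeval (Real.exp 1) P|) := mul_le_mul_of_nonneg_left h7 (by positivity)
    _ = |Polynomial.aeval (Real.exp 1) P| := by
        rw [← mul_assoc, inv_mul_cancel₀ hF0.ne', one_mul]

theorem smeas_e : SMeas (Real.exp 1) := by
  intro k
  set K : ℕ := k + 2 with hK
  have hK0 : (0 : ℝ) < K := by rw [hK]; positivity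
  have hK2 : (2 : ℝ) ≤ K := by rw [hK]; push_cast; linarith [(Nat.cast_nonneg k : (0 : ℝ) ≤ k)]
  set c1 : ℝ := 2 * (24 + K) with hc1
  have hc10 : 0 < c1 := by positivity
  refine ⟨2 * K, ((K * c1) ^ 2 + K * c1 + 1) * 9 ^ K, by positivity, ?_⟩
  intro d H P hP hdeg hcard hcoef
  -- `H ≥ 1`
  have hH : 1 ≤ H := by
    by_contra hcon
    have hH0 : H = 0 := by omega
    apply hP
    ext i
    have h1 := hcoef i
    rw [hH0, Nat.cast_zero] at h1
    rw [Polynomial.coeff_zero]
    exact abs_nonpos_iff.1 h1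
  have hH1 : (1 : ℝ) ≤ H := by exact_mod_cast hH
  set x : ℝ := Real.log (1 + H) with hx
  have hx0 : 1 / 2 ≤ x := by
    have h1 : Real.log 2 ≤ x := Real.log_le_log (by norm_num) (by linarith)
    have h2 := Real.log_two_gt_d9
    linarith
  set Z : ℝ := (d : ℝ) + x with hZ
  have hd0 : (0 : ℝ) ≤ d := Nat.cast_nonneg d
  have hZ0 : 1 / 2 ≤ Z := by linarith
  set G : ℕ := d + 1 with hG
  have hGZ : (G : ℝ) ≤ 3 * Z := by rw [hG]; push_cast; linarith
  have hG1 : (1 : ℝ) ≤ G := by rw [hG]; push_cast; linarith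
  set V : ℝ := (3 * Z) ^ K with hV
  have h3Z : 1 ≤ 3 * Z := by linarith
  have hV1 : 1 ≤ V := one_le_pow₀ h3Z
  have hZV : 3 * Z ≤ V := by
    calc 3 * Z = (3 * Z) ^ 1 := (pow_one _).symm
      _ ≤ (3 * Z) ^ K := pow_le_pow_right₀ h3Z (by omega)
  have hGV : (G : ℝ) ^ K ≤ V := pow_le_pow_left₀ (by linarith) hGZ K
  set m : ℕ := 21 * G ^ K + K + ⌈x⌉₊ + 1 with hm
  obtain ⟨p, hp, hmp, hp2⟩ := Nat.exists_prime_lt_and_le_two_mul m (by omega)
  have hmR : (m : ℝ) = 21 * (G : ℝ) ^ K + K + (⌈x⌉₊ : ℝ) + 1 := by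
    rw [hm]; push_cast; ring
  have hcl1 : x ≤ (⌈x⌉₊ : ℝ) := Nat.le_ceil x
  have hcl2 : (⌈x⌉₊ : ℝ) < x + 1 := Nat.ceil_lt_add_one (by linarith)
  have hmp' : (m : ℝ) < p := by exact_mod_cast hmp
  have hp2' : (p : ℝ) ≤ 2 * m := by exact_mod_cast hp2
  have hp0 : (0 : ℝ) < p := by exact_mod_cast hp.pos
  have hGK : (G : ℝ) ≤ (G : ℝ) ^ K := by
    calc (G : ℝ) = (G : ℝ) ^ 1 := (pow_one _).symm
      _ ≤ (G : ℝ) ^ K := pow_le_pow_right₀ hG1 (by omega)
  have hGp : G < p := by
    have : (G : ℝ) < p := by linarith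
    exact_mod_cast this
  have hbig : Real.log 2 + Real.log K + Real.log H + G + K * p * Real.log G ≤ p * Real.log p - p - Real.log p := by
    have h1 : 3 + K * Real.log G ≤ Real.log p := by
      have h2 : Real.exp 3 ≤ 21 := by
        have h3 : Real.exp 1 ≤ 2.72 := by
          have := Real.exp_one_lt_d9
          linarith
        calc Real.exp 3 = Real.exp 1 ^ 3 := by
              rw [← Real.exp_nat_mul]
              norm_num
          _ ≤ (2.72 : ℝ) ^ 3 := pow_le_pow_left₀ (Real.exp_pos _).le h3 3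
          _ ≤ 21 := by norm_num
      have hGKp : (0 : ℝ) < (G : ℝ) ^ K := by positivity
      have h3 : Real.exp 3 * (G : ℝ) ^ K ≤ p := by
        have := mul_le_mul_of_nonneg_right h2 hGKp.le
        linarith
      have h4 := Real.log_le_log (by positivity) h3
      rw [Real.log_mul (Real.exp_pos _).ne' hGKp.ne', Real.log_exp, Real.log_pow] at h4
      exact h4
    have h5 : Real.log p ≤ p := by
      have := Real.log_le_sub_one_of_pos hp0
      linarith
    have h6 : Real.log 2 ≤ 1 := by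
      have := Real.log_two_lt_d9
      linarith
    have h7 : Real.log K ≤ K := by
      have := Real.log_le_sub_one_of_pos hK0
      linarith
    have h8 : Real.log H ≤ x := Real.log_le_log (by linarith) (by linarith)
    have h9 : p * (3 + K * Real.log G) ≤ p * Real.log p := mul_le_mul_of_nonneg_left h1 hp0.le
    have h10 : x + G + K + 1 ≤ p := by linarith
    have h11 : p * (3 + K * Real.log G) = 3 * p + K * p * Real.log G := by ring
    linarith
  have hcore := core K G H (by omega) hH P hP (by omega) (by omega) hcoef p hp hGp hbig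
  refine le_trans ?_ hcore
  have hpV : (p : ℝ) ≤ c1 * V := by
    have h1 : (m : ℝ) ≤ (24 + K) * V := by
      have h2 : (K : ℝ) ≤ K * V := by
        have := mul_le_mul_of_nonneg_left hV1 hK0.le
        linarith
      have h3 : x ≤ V := by linarith
      rw [hmR]
      linarith
    rw [hc1]
    linarith
  have hKp : (K : ℝ) * p ≤ K * c1 * V := by
    have := mul_le_mul_of_nonneg_left hpV hK0.le
    linarith
  have hKp0 : (0 : ℝ) < K * p := by positivity
  have hA1 : Real.log (K * p) ≤ K * c1 * V := by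
    have := Real.log_le_sub_one_of_pos hKp0
    linarith
  have hA0 : 0 ≤ Real.log (K * p) := by
    apply Real.log_nonneg
    have h1 : (1 : ℝ) ≤ p := by exact_mod_cast hp.one_le
    have h2 := mul_le_mul hK2 h1 zero_le_one hK0.le
    linarith
  have hB1 : Real.log (1 + G) ≤ V := by
    have := Real.log_le_sub_one_of_pos (by linarith : (0 : ℝ) < 1 + G)
    linarith
  have hB0 : 0 ≤ Real.log (1 + G) := Real.log_nonneg (by linarith)
  have hV0 : 0 < V := by linarith
  have hV2 : 1 ≤ V * V := by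
    have := mul_le_mul hV1 hV1 zero_le_one hV0.le
    linarith
  have h1 : K * p * Real.log (K * p) ≤ (K * c1 * V) * (K * c1 * V) := mul_le_mul hKp hA1 hA0 (by positivity)
  have h2 : K * p * Real.log (1 + G) ≤ (K * c1 * V) * V := mul_le_mul hKp hB1 hB0 (by positivity)
  have e1 : ((K * c1) ^ 2 + K * c1 + 1) * 9 ^ K * Z ^ (2 * K) = (K * c1 * V) * (K * c1 * V) + (K * c1 * V) * V + V * V := by
    have e2 : V * V = 9 ^ K * Z ^ (2 * K) := by
      rw [hV, ← mul_pow, pow_mul, ← mul_pow]
      congr 1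
      ring
    calc ((K * c1) ^ 2 + K * c1 + 1) * 9 ^ K * Z ^ (2 * K) = ((K * c1) ^ 2 + K * c1 + 1) * (9 ^ K * Z ^ (2 * K)) := by ring
      _ = ((K * c1) ^ 2 + K * c1 + 1) * (V * V) := by rw [e2]
      _ = _ := by ring
  rw [e1]
  have h3 : Real.exp (-1) ≤ 1 / 2 := by
    rw [Real.exp_neg]
    have h4 : (2 : ℝ) ≤ Real.exp 1 := by
      have := Real.exp_one_gt_d9
      linarith
    rw [one_div]
    exact inv_anti₀ (by norm_num) h4
  calc Real.exp (-((K * c1 * V) * (K * c1 * V) + (K * c1 * V) * V + V * V)) ≤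
        Real.exp (-(K * p * Real.log (K * p) + K * p * Real.log (1 + G)) + -1) := by
        apply Real.exp_le_exp.2
        linarith
    _ = Real.exp (-(K * p * Real.log (K * p) + K * p * Real.log (1 + G))) * Real.exp (-1) := Real.exp_add _ _
    _ ≤ Real.exp (-(K * p * Real.log (K * p) + K * p * Real.log (1 + G))) * (1 / 2) :=
        mul_le_mul_of_nonneg_left h3 (Real.exp_pos _).le
    _ = _ := by ring

end Pool.Agent.Helper95.KX
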