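import Pool.Agent.Helper95.KX.Closure2

/-!
# The measure for sparse polynomials: multiples by algebraic numbers
-/

set_option autoImplicit false

namespace Pool.Agent.Helper95.KX

open Polynomial Finset
open scoped Nat

/-- determinants and eigenvectors -/
theorem eig_val {n : ℕ} (hn : 0 < n) (M : Matrix (Fin n) (Fin n) ℤ[X]) (y lam : ℝ) (v : Fin n → ℝ) {K V : ℝ}
    (hK : 1 ≤ K) (hent : ∀ i j, |aeval y (M i j)| ≤ K) (heig : ∀ i, ∑ j, aeval y (M i j) * v j = lam * v i)
    (hv0 : v ⟨0, hn⟩ = 1) (hv : ∀ j, |v j| ≤ V) : |aeval y M.det| ≤ |lam| * (n * (n ! * K ^ n * V)) := by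
  set Mr : Matrix (Fin n) (Fin n) ℝ := fun i j => aeval y (M i j) with hMr
  have hdet : aeval y M.det = Mr.det := RingHom.map_det (aeval (R := ℤ) y).toRingHom M
  have heig' : Mr.mulVec v = fun i => lam * v i := by
    funext i
    exact heig i
  have hadj : ∀ i j, |Mr.adjugate i j| ≤ n ! * K ^ n := by
    intro i j
    rw [Matrix.adjugate_apply]
    have h1 := Matrix.det_le (A := Mr.updateRow j (Pi.single i 1)) (abv := AbsoluteValue.abs) (x := K) (by
      intro i' j'
      show |Mr.updateRow j (Pi.single i 1) i' j'| ≤ K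
      by_cases hi : i' = j
      · rw [hi, Matrix.updateRow_self]
        by_cases hj : j' = i
        · rw [hj, Pi.single_eq_same, abs_one]; exact hK
        · rw [Pi.single_eq_of_ne hj, abs_zero]; linarith
      · rw [Matrix.updateRow_ne hi]
        exact hent i' j')
    rw [Fintype.card_fin, nsmul_eq_mul] at h1
    exact h1
  have hmain : Mr.det * v ⟨0, hn⟩ = lam * ∑ j, Mr.adjugate ⟨0, hn⟩ j * v j := by
    have h1 : (Mr.adjugate).mulVec (Mr.mulVec v) = Mr.det • v := by
      rw [Matrix.mulVec_mulVec, Matrix.adjugate_mul, Matrix.smul_mulVec, Matrix.one_mulVec]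
    have h2 := congrFun h1 ⟨0, hn⟩
    rw [heig'] at h2
    simp only [Matrix.mulVec, dotProduct, Pi.smul_apply, smul_eq_mul] at h2
    rw [← h2, Finset.mul_sum]
    refine Finset.sum_congr rfl fun j _ => ?_
    ring
  rw [hv0, mul_one] at hmain
  rw [hdet, hmain, abs_mul]
  apply mul_le_mul_of_nonneg_left _ (abs_nonneg _)
  refine (Finset.abs_sum_le_sum_abs _ _).trans ?_
  have hV : 0 ≤ V := (abs_nonneg _).trans (hv ⟨0, hn⟩)
  have h3 : ∀ j ∈ (Finset.univ : Finset (Fin n)), |Mr.adjugate ⟨0, hn⟩ j * v j| ≤ n ! * K ^ n * V := by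
    intro j _
    rw [abs_mul]
    exact mul_le_mul (hadj _ _) (hv j) (abs_nonneg _) (by positivity)
  refine (Finset.sum_le_sum h3).trans ?_
  rw [Finset.sum_const, Finset.card_univ, Fintype.card_fin, nsmul_eq_mul]

/-- coordinates of the powers of an algebraic integer -/
theorem pow_coord {α : ℝ} (hα : IsIntegral ℤ α) {n : ℕ} (hn : (minpoly ℤ α).natDegree = n) (hn0 : 0 < n) :
    ∃ B : ℕ, 1 ≤ B ∧ ∀ m : ℕ, ∃ a : Fin n → ℤ, α ^ m = ∑ j, (a j : ℝ) * α ^ (j : ℕ) ∧ ∀ j, |a j| ≤ (B : ℤ) ^ m := by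
  set g := minpoly ℤ α with hg
  have hmon : g.Monic := minpoly.monic hα
  have hg0 : aeval α g = 0 := minpoly.aeval ℤ α
  obtain ⟨n', rfl⟩ : ∃ n', n = n' + 1 := ⟨n - 1, by omega⟩
  set B : ℕ := 1 + ∑ j ∈ range (n' + 1), (g.coeff j).natAbs with hB
  have hBj : ∀ j : Fin (n' + 1), 1 + |g.coeff j| ≤ (B : ℤ) := by
    intro j
    have h1 : (g.coeff j).natAbs ≤ ∑ j ∈ range (n' + 1), (g.coeff j).natAbs :=
      Finset.single_le_sum (f := fun j => (g.coeff j).natAbs) (fun _ _ => Nat.zero_le _) (Finset.mem_range.2 j.2)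
    have h2 : |g.coeff j| = ((g.coeff j).natAbs : ℤ) := (Int.natCast_natAbs _).symm
    rw [h2, hB]
    push_cast
    have h3 : ((g.coeff j).natAbs : ℤ) ≤ ((∑ j ∈ range (n' + 1), (g.coeff j).natAbs : ℕ) : ℤ) := by exact_mod_cast h1
    push_cast at h3
    linarith
  have hpow : α ^ (n' + 1) = -∑ j : Fin (n' + 1), (g.coeff j : ℝ) * α ^ (j : ℕ) := by
    rw [aeval_eq_sum_range, hn, Finset.sum_range_succ] at hg0
    have h1 : g.coeff (n' + 1) = 1 := by rw [← hn]; exact hmon
    rw [h1, one_smul] at hg0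
    rw [Fin.sum_univ_eq_sum_range (fun j => (g.coeff j : ℝ) * α ^ j) (n' + 1)]
    have h2 : ∑ i ∈ range (n' + 1), g.coeff i • α ^ i = ∑ i ∈ range (n' + 1), (g.coeff i : ℝ) * α ^ i :=
      Finset.sum_congr rfl fun i _ => zsmul_eq_mul _ _
    rw [h2] at hg0
    linarith
  refine ⟨B, by rw [hB]; omega, ?_⟩
  intro m
  induction m with
  | zero =>
    refine ⟨fun j => if j = 0 then 1 else 0, ?_, ?_⟩
    · rw [Fin.sum_univ_succ]
      simp
    · intro j
      rw [pow_zero]
      simp only
      split_ifs <;> simp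
  | succ m ih =>
    obtain ⟨a, ha, hab⟩ := ih
    refine ⟨fun j => Fin.cases (motive := fun _ => ℤ) 0 (fun i => a i.castSucc) j - a (Fin.last n') * g.coeff j, ?_, ?_⟩
    · rw [pow_succ, ha, Fin.sum_univ_castSucc, add_mul, Finset.sum_mul]
      simp only [Fin.val_last, Fin.val_castSucc]
      have e1 : (a (Fin.last n') : ℝ) * α ^ n' * α = a (Fin.last n') * α ^ (n' + 1) := by ring
      rw [e1, hpow]
      have e2 : ∑ j : Fin (n' + 1), (((Fin.cases (motive := fun _ => ℤ) 0 (fun i => a i.castSucc) j -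
          a (Fin.last n') * g.coeff j : ℤ)) : ℝ) * α ^ (j : ℕ) =
          ∑ j : Fin (n' + 1), ((Fin.cases (motive := fun _ => ℤ) 0 (fun i => a i.castSucc) j : ℤ) : ℝ) * α ^ (j : ℕ) +
          a (Fin.last n') * -∑ j : Fin (n' + 1), (g.coeff j : ℝ) * α ^ (j : ℕ) := by
        rw [mul_neg, Finset.mul_sum, ← sub_eq_add_neg, ← Finset.sum_sub_distrib]
        refine Finset.sum_congr rfl fun j _ => ?_
        push_cast
        ring
      rw [e2]
      congr 1
      rw [Fin.sum_univ_succ (n := n')]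
      simp only [Fin.cases_zero, Fin.cases_succ, Int.cast_zero, zero_mul, zero_add, Fin.val_succ]
      refine Finset.sum_congr rfl fun j _ => ?_
      ring
    · intro j
      have h1 : |a (Fin.last n') * g.coeff j| ≤ (B : ℤ) ^ m * |g.coeff j| := by
        rw [abs_mul]
        exact mul_le_mul_of_nonneg_right (hab _) (abs_nonneg _)
      have h2 : |Fin.cases (motive := fun _ => ℤ) 0 (fun i => a i.castSucc) j| ≤ (B : ℤ) ^ m := by
        refine Fin.cases ?_ (fun i => ?_) j
        · simp only [Fin.cases_zero, abs_zero]; positivity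
        · simp only [Fin.cases_succ]; exact hab _
      calc |Fin.cases (motive := fun _ => ℤ) 0 (fun i => a i.castSucc) j - a (Fin.last n') * g.coeff j| ≤
            |Fin.cases (motive := fun _ => ℤ) 0 (fun i => a i.castSucc) j| + |a (Fin.last n') * g.coeff j| := abs_sub _ _
        _ ≤ (B : ℤ) ^ m + (B : ℤ) ^ m * |g.coeff j| := add_le_add h2 h1
        _ = (B : ℤ) ^ m * (1 + |g.coeff j|) := by ring
        _ ≤ (B : ℤ) ^ m * B := mul_le_mul_of_nonneg_left (hBj j) (by positivity)
        _ = (B : ℤ) ^ (m + 1) := (pow_succ _ _).symm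

/-- linear independence of the powers -/
theorem pow_li {α : ℝ} {n : ℕ} (hn : (minpoly ℤ α).natDegree = n) (hα : IsIntegral ℤ α)
    (u : Fin n → ℤ) (hu : ∑ i, (u i : ℝ) * α ^ (i : ℕ) = 0) : u = 0 := by
  classical
  set p : ℤ[X] := ∑ i : Fin n, monomial (i : ℕ) (u i) with hp
  have hpc : ∀ i : Fin n, p.coeff i = u i := by
    intro i
    rw [hp, finset_sum_coeff]
    simp_rw [coeff_monomial]
    rw [Finset.sum_eq_single i]
    · simp
    · intro j _ hj
      rw [if_neg]
      intro h
      exact hj (Fin.ext h)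
    · intro h
      exact absurd (Finset.mem_univ _) h
  have hpa : aeval α p = 0 := by
    rw [hp, map_sum, ← hu]
    refine Finset.sum_congr rfl fun i _ => ?_
    rw [aeval_monomial]
    rfl
  have hpd : p.degree < n := by
    rw [hp]
    refine (degree_sum_fin_lt (fun i => u i) : _) |> fun h => ?_
    have e1 : ∑ i : Fin n, monomial (i : ℕ) (u i) = ∑ i : Fin n, C (u i) * X ^ (i : ℕ) :=
      Finset.sum_congr rfl fun i _ => (C_mul_X_pow_eq_monomial).symm
    rw [e1]
    exact h
  have hp0 : p = 0 := by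
    by_contra hp0
    have h1 := minpoly.IsIntegrallyClosed.degree_le_of_ne_zero hp0 hpa
    rw [degree_eq_natDegree (minpoly.ne_zero hα), hn] at h1
    exact absurd (lt_of_le_of_lt h1 hpd) (lt_irrefl _)
  funext i
  rw [← hpc i, hp0]
  rfl

/-- algebraic integers -/
theorem smeas_intmul {x α : ℝ} (hα : IsIntegral ℤ α) (hα0 : α ≠ 0) (h : SMeas x) : SMeas (α * x) := by
  classical
  obtain ⟨n, hn⟩ : ∃ n, (minpoly ℤ α).natDegree = n := ⟨_, rfl⟩
  have hn0 : 0 < n := by rw [← hn]; exact minpoly.natDegree_pos hα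
  obtain ⟨B, hB1, hB⟩ := pow_coord hα hn hn0
  choose a ha hab using hB
  apply smeas_transfer h
  intro k
  set Y : ℝ := 1 + |x| + |α| with hY
  have hY1 : 1 ≤ Y := by
    have h1 := abs_nonneg x
    have h2 := abs_nonneg α
    linarith
  have hxY : |x| ≤ Y := by
    have h2 := abs_nonneg α
    linarith
  have hαY : |α| ≤ Y := by
    have h2 := abs_nonneg x
    linarith
  have hY0 : 0 < Y := by linarith
  have hlY : 0 ≤ Real.log Y := Real.log_nonneg hY1
  have hn0R : (0 : ℝ) < n := by exact_mod_cast hn0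
  have hn1R : (1 : ℝ) ≤ n := by exact_mod_cast hn0
  have hln : 0 ≤ Real.log n := Real.log_nonneg hn1R
  have hB1R : (1 : ℝ) ≤ B := by exact_mod_cast hB1
  have hB0R : (0 : ℝ) < B := by linarith
  have hlB : 0 ≤ Real.log B := Real.log_nonneg hB1R
  have hf0 : (0 : ℝ) < (n ! : ℝ) := by exact_mod_cast Nat.factorial_pos n
  have hf1 : (1 : ℝ) ≤ (n ! : ℝ) := by exact_mod_cast Nat.factorial_pos n
  have hlf : 0 ≤ Real.log (n ! : ℝ) := Real.log_nonneg hf1
  have hk1 : (1 : ℝ) ≤ (k + 1 : ℕ) := by push_cast; linarith [(Nat.cast_nonneg k : (0 : ℝ) ≤ k)]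
  have hk0 : (0 : ℝ) < (k + 1 : ℕ) := by linarith
  have hlk : 0 ≤ Real.log (k + 1 : ℕ) := Real.log_nonneg hk1
  have hnk := mul_nonneg hn0R.le hlk
  have hnB := mul_nonneg hn0R.le hlB
  have hnnB := mul_nonneg (mul_nonneg hn0R.le hn0R.le) hlB
  have hnY := mul_nonneg hn0R.le hlY
  set c0 : ℝ := 1 + Real.log (n ! : ℝ) + n * Real.log (k + 1 : ℕ) + n * n * Real.log B with hc0
  have hc00 : 0 ≤ c0 := by linarith
  set c0' : ℝ := Real.log n + Real.log (n ! : ℝ) + n * Real.log (k + 1 : ℕ) + n * n * Real.log B + n * Real.log Y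
    with hc0'
  have hc00' : 0 ≤ c0' := by linarith
  refine ⟨n ! * (k + 1) ^ n, n + n * Real.log B + 2 * c0, n + n * Real.log B + n * Real.log Y + 2 * c0', by linarith,
    by linarith, ?_⟩
  intro d H P hP hdeg hcard hcoef hH
  have hZ0 := half_le hH d
  have hH1 : (1 : ℝ) ≤ H := by exact_mod_cast hH
  have hH0 : (0 : ℝ) < H := by linarith
  have hd0 : (0 : ℝ) ≤ d := Nat.cast_nonneg d
  set y : ℝ := Real.log (1 + H) with hy
  have hlH : Real.log H ≤ y := Real.log_le_log (by linarith) (by linarith)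
  have hlH0 : 0 ≤ Real.log H := Real.log_nonneg hH1
  have hy0 : 0 ≤ y := hlH0.trans hlH
  -- the matrix
  set M : Matrix (Fin n) (Fin n) ℤ[X] := fun i j =>
    ∑ l ∈ range (P.natDegree + 1), monomial l (P.coeff l * a (i + l) j) with hM
  have hMc : ∀ i j l, (M i j).coeff l = P.coeff l * a (i + l) j := by
    intro i j l
    rw [hM]
    simp only
    rw [finset_sum_coeff]
    simp_rw [coeff_monomial]
    rw [Finset.sum_ite_eq' (range (P.natDegree + 1)) l]
    split_ifs with h1
    · rfl
    · rw [Finset.mem_range, not_lt] at h1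
      rw [coeff_eq_zero_of_natDegree_lt (by omega), zero_mul]
  have hMS : ∀ i j, SP (M i j) (k + 1) (H * B ^ (n + d)) d := by
    intro i j
    refine ⟨?_, ?_, ?_⟩
    · refine le_trans (Finset.card_le_card ?_) hcard
      intro l hl
      rw [mem_support_iff, hMc] at hl
      rw [mem_support_iff]
      exact left_ne_zero_of_mul hl
    · intro l
      rw [hMc, abs_mul]
      push_cast
      by_cases hl : l ≤ d
      · refine mul_le_mul (hcoef l) ((hab _ _).trans ?_) (abs_nonneg _) (by positivity)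
        exact pow_le_pow_right₀ (by exact_mod_cast hB1) (by have := i.2; omega)
      · rw [coeff_eq_zero_of_natDegree_lt (by omega), abs_zero, zero_mul]
        positivity
    · rw [hM]
      apply natDegree_sum_le_of_forall_le
      intro l hl
      refine (natDegree_monomial_le _).trans ?_
      rw [Finset.mem_range] at hl
      omega
  have hdetS := SP.det M hMS
  -- action of the matrix
  have hMval : ∀ (i j : Fin n), aeval x (M i j) = ∑ l ∈ range (P.natDegree + 1), (P.coeff l : ℝ) * (a (i + l) j) * x ^ l := by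
    intro i j
    rw [hM]
    simp only
    rw [map_sum]
    refine Finset.sum_congr rfl fun l _ => ?_
    rw [aeval_monomial]
    have : (algebraMap ℤ ℝ) (P.coeff l * a (i + l) j) = ((P.coeff l * a (i + l) j : ℤ) : ℝ) := rfl
    rw [this]
    push_cast
    ring
  have heig : ∀ i : Fin n, ∑ j, aeval x (M i j) * α ^ (j : ℕ) = aeval (α * x) P * α ^ (i : ℕ) := by
    intro i
    simp_rw [hMval, Finset.sum_mul]
    rw [Finset.sum_comm, aeval_eq_sum_range, Finset.sum_mul]
    refine Finset.sum_congr rfl fun l _ => ?_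
    have h1 := ha (i + l)
    calc ∑ j, (P.coeff l : ℝ) * (a (i + l) j) * x ^ l * α ^ (j : ℕ) =
          (P.coeff l : ℝ) * x ^ l * ∑ j, (a (i + l) j : ℝ) * α ^ (j : ℕ) := by
          rw [Finset.mul_sum]
          refine Finset.sum_congr rfl fun j _ => ?_
          ring
      _ = (P.coeff l : ℝ) * x ^ l * α ^ ((i : ℕ) + l) := by rw [← h1]
      _ = _ := by rw [zsmul_eq_mul, mul_pow, pow_add]; ring
  -- the determinant does not vanish
  have hdet0 : M.det ≠ 0 := by
    intro h0
    rw [← Matrix.exists_vecMul_eq_zero_iff] at h0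
    obtain ⟨u, hu0, hu⟩ := h0
    set Pt : ℝ[X] := (P.map (Int.castRingHom ℝ)).comp (C α * X) with hPt
    set ut : ℝ[X] := ∑ i : Fin n, C (α ^ (i : ℕ)) * (u i).map (Int.castRingHom ℝ) with hut
    have hPtc : Pt = ∑ l ∈ range (P.natDegree + 1), C ((P.coeff l : ℝ) * α ^ l) * X ^ l := by
      ext m
      rw [hPt, comp_C_mul_X_coeff, coeff_map, finset_sum_coeff]
      simp_rw [coeff_C_mul_X_pow]
      rw [Finset.sum_ite_eq (range (P.natDegree + 1)) m]
      split_ifs with h1
      · rfl
      · rw [Finset.mem_range, not_lt] at h1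
        rw [coeff_eq_zero_of_natDegree_lt (by omega)]
        simp
    have hMm : ∀ i j, (M i j).map (Int.castRingHom ℝ) =
        ∑ l ∈ range (P.natDegree + 1), C ((P.coeff l : ℝ) * a (i + l) j) * X ^ l := by
      intro i j
      ext m
      rw [coeff_map, hMc, finset_sum_coeff]
      simp_rw [coeff_C_mul_X_pow]
      rw [Finset.sum_ite_eq (range (P.natDegree + 1)) m]
      split_ifs with h1
      · simp
      · rw [Finset.mem_range, not_lt] at h1
        rw [coeff_eq_zero_of_natDegree_lt (by omega)]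
        simp
    have hprod : ut * Pt = ∑ j : Fin n, C (α ^ (j : ℕ)) * (∑ i : Fin n, u i * M i j).map (Int.castRingHom ℝ) := by
      rw [hut, Finset.sum_mul]
      simp_rw [Polynomial.map_sum, Polynomial.map_mul, Finset.mul_sum]
      rw [Finset.sum_comm]
      refine Finset.sum_congr rfl fun i _ => ?_
      have h1 : ∀ j : Fin n, C (α ^ (j : ℕ)) * ((u i).map (Int.castRingHom ℝ) * (M i j).map (Int.castRingHom ℝ)) =
          (u i).map (Int.castRingHom ℝ) * ∑ l ∈ range (P.natDegree + 1),
            C ((P.coeff l : ℝ) * (a (i + l) j * α ^ (j : ℕ))) * X ^ l := by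
        intro j
        rw [hMm, mul_left_comm]
        congr 1
        rw [Finset.mul_sum]
        refine Finset.sum_congr rfl fun l _ => ?_
        rw [← mul_assoc, ← C_mul]
        congr 2
        ring
      simp_rw [h1]
      rw [← Finset.mul_sum, Finset.sum_comm, hPtc, mul_comm (C (α ^ (i : ℕ))), mul_assoc]
      congr 1
      rw [Finset.mul_sum]
      refine Finset.sum_congr rfl fun l _ => ?_
      rw [← mul_assoc, ← C_mul, ← Finset.sum_mul, ← map_sum, ← Finset.mul_sum, ← ha]
      congr 2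
      rw [pow_add]
      ring
    have hz : ut * Pt = 0 := by
      rw [hprod]
      refine Finset.sum_eq_zero fun j _ => ?_
      have h4 := congrFun hu j
      simp only [Matrix.vecMul, dotProduct, Pi.zero_apply] at h4
      rw [h4, Polynomial.map_zero, mul_zero]
    have hPt0 : Pt ≠ 0 := by
      intro h5
      apply hP
      ext m
      have h6 := congrArg (fun q => q.coeff m) h5
      simp only [hPt, comp_C_mul_X_coeff, coeff_map, coeff_zero] at h6
      have h7 := (mul_eq_zero.1 h6).resolve_right (pow_ne_zero _ hα0)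
      rw [coeff_zero]
      have h8 : ((P.coeff m : ℤ) : ℝ) = 0 := h7
      exact_mod_cast h8
    have hut0 := (mul_eq_zero.1 hz).resolve_right hPt0
    apply hu0
    funext i
    ext m
    have h6 := congrArg (fun q => q.coeff m) hut0
    simp only [hut, finset_sum_coeff, coeff_C_mul, coeff_map, coeff_zero] at h6
    have h7 := pow_li hn hα (fun i => (u i).coeff m) (by
      rw [← h6]
      refine Finset.sum_congr rfl fun i _ => ?_
      rw [mul_comm]
      rfl)
    exact congrFun h7 i
  -- the value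
  set K : ℝ := ((k + 1 : ℕ) : ℝ) * ((H * B ^ (n + d) : ℕ) : ℝ) * Y ^ d with hK
  have hHB : (1 : ℝ) ≤ ((H * B ^ (n + d) : ℕ) : ℝ) := by
    have : 1 ≤ H * B ^ (n + d) := Nat.mul_pos hH (pow_pos hB1 _)
    exact_mod_cast this
  have hK1 : 1 ≤ K := one_le_mul_of_one_le_of_one_le (one_le_mul_of_one_le_of_one_le hk1 hHB) (one_le_pow₀ hY1)
  have hval := eig_val hn0 M x (aeval (α * x) P) (fun j => α ^ (j : ℕ)) (K := K) (V := Y ^ n) hK1
    (fun i j => (hMS i j).eval_le x hY1 hxY) heig (by simp) (fun j => by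
      rw [abs_pow]
      calc |α| ^ (j : ℕ) ≤ Y ^ (j : ℕ) := pow_le_pow_left₀ (abs_nonneg _) hαY _
        _ ≤ Y ^ n := pow_le_pow_right₀ hY1 j.2.le)
  refine ⟨n * d, n ! * ((k + 1) * (H * B ^ (n + d))) ^ n, M.det, hdet0, hdetS.2.2, hdetS.1.trans (Nat.le_succ _),
    hdetS.2.1, ?_, ?_⟩
  · have hq : (1 : ℝ) ≤ ((n ! * ((k + 1) * (H * B ^ (n + d))) ^ n : ℕ) : ℝ) := by
      have : 1 ≤ n ! * ((k + 1) * (H * B ^ (n + d))) ^ n := Nat.succ_le_of_lt (by positivity)
      exact_mod_cast this
    have h3 : Real.log (1 + ((n ! * ((k + 1) * (H * B ^ (n + d))) ^ n : ℕ) : ℝ)) ≤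
        Real.log (2 * ((n ! * ((k + 1) * (H * B ^ (n + d))) ^ n : ℕ) : ℝ)) := Real.log_le_log (by linarith) (by linarith)
    have e1 : Real.log (2 * ((n ! * ((k + 1) * (H * B ^ (n + d))) ^ n : ℕ) : ℝ)) =
        Real.log 2 + Real.log (n ! : ℝ) + n * Real.log (k + 1 : ℕ) + n * Real.log H + n * ((n + d) * Real.log B) := by
      rw [Nat.cast_mul, Nat.cast_pow, Nat.cast_mul (k + 1), Nat.cast_mul H, Nat.cast_pow B,
        Real.log_mul (by norm_num) (by positivity), Real.log_mul hf0.ne' (by positivity), Real.log_pow,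
        Real.log_mul hk0.ne' (by positivity), Real.log_mul hH0.ne' (by positivity), Real.log_pow]
      push_cast
      ring
    have h4 : Real.log 2 ≤ 1 := by
      have := Real.log_two_lt_d9
      linarith
    have h5 : n * Real.log H ≤ n * y := mul_le_mul_of_nonneg_left hlH hn0R.le
    have h6 : c0 ≤ 2 * c0 * ((d : ℝ) + y) := by
      have := mul_le_mul_of_nonneg_left hZ0 (by linarith : 0 ≤ 2 * c0)
      linarith
    have h7 : 0 ≤ n * Real.log B * y := mul_nonneg hnB hy0
    have e2 : ((n * d : ℕ) : ℝ) = n * d := by push_cast; ring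
    have e3 : (n + n * Real.log B + 2 * c0) * ((d : ℝ) + y) =
        n * d + n * y + n * Real.log B * d + n * Real.log B * y + 2 * c0 * ((d : ℝ) + y) := by ring
    have e4 : (n : ℝ) * ((n + d) * Real.log B) = n * n * Real.log B + n * Real.log B * d := by ring
    rw [e2, e3]
    rw [e1, e4] at h3
    linarith
  · refine hval.trans (mul_le_mul_of_nonneg_left ?_ (abs_nonneg _))
    have hF0 : 0 < (n : ℝ) * (n ! * K ^ n * Y ^ n) := by positivity
    rw [← Real.exp_log hF0]
    apply Real.exp_le_exp.2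
    have e1 : Real.log ((n : ℝ) * (n ! * K ^ n * Y ^ n)) = Real.log n + Real.log (n ! : ℝ) + n * Real.log (k + 1 : ℕ) +
        n * Real.log H + n * ((n + d) * Real.log B) + n * (d * Real.log Y) + n * Real.log Y := by
      rw [hK, Real.log_mul hn0R.ne' (by positivity), Real.log_mul (by positivity) (by positivity),
        Real.log_mul hf0.ne' (by positivity), Real.log_pow, Real.log_pow, Real.log_mul (by positivity) (by positivity),
        Real.log_mul hk0.ne' (by positivity), Nat.cast_mul H, Nat.cast_pow B, Real.log_mul hH0.ne' (by positivity),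
        Real.log_pow, Real.log_pow]
      push_cast
      ring
    have h3 : c0' ≤ 2 * c0' * ((d : ℝ) + y) := by
      have := mul_le_mul_of_nonneg_left hZ0 (by linarith : 0 ≤ 2 * c0')
      linarith
    have h4 : n * Real.log H ≤ n * y := mul_le_mul_of_nonneg_left hlH hn0R.le
    have h5 : 0 ≤ n * Real.log B * y := mul_nonneg hnB hy0
    have h6 : 0 ≤ n * Real.log Y * y := mul_nonneg hnY hy0
    have h7 : 0 ≤ (n : ℝ) * d := mul_nonneg hn0R.le hd0
    have e2 : (n + n * Real.log B + n * Real.log Y + 2 * c0') * ((d : ℝ) + y) = n * d + n * y + n * Real.log B * d +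
        n * Real.log B * y + n * Real.log Y * d + n * Real.log Y * y + 2 * c0' * ((d : ℝ) + y) := by ring
    have e3 : Real.log n + Real.log (n ! : ℝ) + n * Real.log (k + 1 : ℕ) +
        n * Real.log H + n * ((n + d) * Real.log B) + n * (d * Real.log Y) + n * Real.log Y =
        c0' + n * Real.log H + n * Real.log B * d + n * Real.log Y * d := by rw [hc0']; ring
    rw [e1, e2, e3]
    linarith

/-- algebraic numbers -/
theorem smeas_algmul {x α : ℝ} (hα : IsAlgebraic ℤ α) (hα0 : α ≠ 0) (h : SMeas x) : SMeas (α * x) := by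
  obtain ⟨m, hm, hmi⟩ := hα.exists_integral_multiple
  rw [zsmul_eq_mul] at hmi
  apply smeas_div hm
  rw [← mul_assoc]
  exact smeas_intmul hmi (mul_ne_zero (by exact_mod_cast hm) hα0) h

/-- the class -/
theorem smeas_class {θ : ℝ} (hθ : 0 < θ) (h : SMeas θ) {α : ℝ} (hα : IsAlgebraic ℤ α) (hα0 : α ≠ 0) {r : ℚ}
    (hr : r ≠ 0) : SMeas (α * θ ^ (r : ℝ)) := by
  apply smeas_algmul hα hα0
  have key : ∀ s : ℚ, 0 < s → SMeas (θ ^ (s : ℝ)) := by
    intro s hs
    have h1 : (s : ℝ) = ((s.num.toNat : ℕ) : ℝ) / (s.den : ℕ) := by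
      have h2 : ((s.num.toNat : ℕ) : ℝ) = (s.num : ℝ) := by
        have h3 : ((s.num.toNat : ℕ) : ℤ) = s.num := Int.toNat_of_nonneg (Rat.num_pos.2 hs).le
        exact_mod_cast congrArg (fun z : ℤ => (z : ℝ)) h3
      rw [h2]
      exact_mod_cast (Rat.num_div_den s).symm
    rw [h1]
    apply smeas_rpow hθ h
    · have := Rat.num_pos.2 hs
      omega
    · exact s.den_pos
  rcases lt_or_gt_of_ne hr with h1 | h1
  · have h2 := key (-r) (by linarith)
    have h3 := smeas_inv (by positivity) h2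
    rw [← Real.rpow_neg hθ.le] at h3
    push_cast at h3
    rw [neg_neg] at h3
    exact h3
  · exact key r h1

/-- `α e^r` -/
theorem smeas_exp {α : ℝ} (hα : IsAlgebraic ℤ α) (hα0 : α ≠ 0) {r : ℚ} (hr : r ≠ 0) : SMeas (α * Real.exp r) := by
  have h1 := smeas_class (Real.exp_pos 1) smeas_e hα hα0 hr
  rw [← Real.exp_mul, one_mul] at h1
  exact h1

end Pool.Agent.Helper95.KX
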