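import Pool.Agent.Helper95.KX.SMeas

/-!
# The measure for sparse polynomials is inherited by rational powers
-/

set_option autoImplicit false

namespace Pool.Agent.Helper95.KX

open Polynomial Finset
open scoped Nat

/-- at most `s` coefficients, of size at most `h`, degree at most `D` -/
def SP (p : ℤ[X]) (s h D : ℕ) : Prop := p.support.card ≤ s ∧ (∀ i, |p.coeff i| ≤ h) ∧ p.natDegree ≤ D

theorem SP.mul {p q : ℤ[X]} {s h D s' h' D' : ℕ} (hp : SP p s h D) (hq : SP q s' h' D') :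
    SP (p * q) (s * s') (s' * (h * h')) (D + D') := by
  refine ⟨card_support_mul_le.trans (Nat.mul_le_mul hp.1 hq.1), fun n => ?_,
    natDegree_mul_le.trans (add_le_add hp.2.2 hq.2.2)⟩
  have h1 : (p * q).coeff n = ∑ j ∈ q.support, (p * (C (q.coeff j) * X ^ j)).coeff n := by
    conv_lhs => rw [q.as_sum_support_C_mul_X_pow]
    rw [Finset.mul_sum, finset_sum_coeff]
  rw [h1]
  refine (Finset.abs_sum_le_sum_abs _ _).trans ?_
  have h2 : ∀ j ∈ q.support, |(p * (C (q.coeff j) * X ^ j)).coeff n| ≤ (h * h' : ℤ) := by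
    intro j _
    rw [← mul_assoc, coeff_mul_X_pow', mul_comm p, coeff_C_mul]
    split_ifs with hj
    · rw [abs_mul, mul_comm]
      exact mul_le_mul (hp.2.1 _) (hq.2.1 _) (abs_nonneg _) (by positivity)
    · rw [abs_zero]; positivity
  refine (Finset.sum_le_sum h2).trans ?_
  rw [Finset.sum_const, nsmul_eq_mul]
  push_cast
  apply mul_le_mul_of_nonneg_right _ (by positivity)
  exact_mod_cast hq.1

theorem SP.one : SP (1 : ℤ[X]) 1 1 0 := by
  refine ⟨?_, fun i => ?_, ?_⟩
  · have h1 := card_support_C_mul_X_pow_le_one (c := (1 : ℤ)) (n := 0)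
    simpa using h1
  · rw [coeff_one]
    split_ifs <;> simp
  · simp

theorem SP.prod {ι : Type*} (S : Finset ι) (f : ι → ℤ[X]) {s h D : ℕ} (hf : ∀ i ∈ S, SP (f i) s h D) :
    SP (∏ i ∈ S, f i) (s ^ S.card) ((s * h) ^ S.card) (S.card * D) := by
  classical
  induction S using Finset.induction_on with
  | empty => simpa using SP.one
  | insert a S ha ih =>
    have h1 := ih fun i hi => hf i (Finset.mem_insert_of_mem hi)
    have h2 := h1.mul (hf a (Finset.mem_insert_self a S))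
    rw [Finset.prod_insert ha, mul_comm, Finset.card_insert_of_notMem ha, pow_succ, pow_succ, Nat.succ_mul]
    have e : (s * h) ^ S.card * (s * h) = s * ((s * h) ^ S.card * h) := by ring
    rw [e]
    exact h2

theorem SP.neg {p : ℤ[X]} {s h D : ℕ} (hp : SP p s h D) : SP (-p) s h D := by
  refine ⟨by rw [support_neg]; exact hp.1, fun i => ?_, by rw [natDegree_neg]; exact hp.2.2⟩
  rw [coeff_neg, abs_neg]
  exact hp.2.1 i

theorem SP.sum {ι : Type*} (S : Finset ι) (f : ι → ℤ[X]) {s h D : ℕ} (hf : ∀ i ∈ S, SP (f i) s h D) :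
    SP (∑ i ∈ S, f i) (S.card * s) (S.card * h) D := by
  classical
  induction S using Finset.induction_on with
  | empty => exact ⟨by simp, fun i => by simp, by simp⟩
  | insert a S ha ih =>
    have h1 := ih fun i hi => hf i (Finset.mem_insert_of_mem hi)
    have h2 := hf a (Finset.mem_insert_self a S)
    rw [Finset.sum_insert ha, Finset.card_insert_of_notMem ha, Nat.succ_mul, Nat.succ_mul]
    refine ⟨?_, fun i => ?_, ?_⟩
    · have := (Finset.card_le_card (support_add (p := f a) (q := ∑ i ∈ S, f i))).trans (Finset.card_union_le _ _)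
      have h3 := h1.1
      have h4 := h2.1
      omega
    · rw [coeff_add]
      refine (abs_add_le _ _).trans ?_
      have h3 := h1.2.1 i
      have h4 := h2.2.1 i
      push_cast at h3 ⊢
      linarith
    · exact (natDegree_add_le _ _).trans (max_le h2.2.2 h1.2.2)

theorem SP.det {b : ℕ} (M : Matrix (Fin b) (Fin b) ℤ[X]) {s h D : ℕ} (hM : ∀ i j, SP (M i j) s h D) :
    SP M.det (b ! * s ^ b) (b ! * (s * h) ^ b) (b * D) := by
  rw [Matrix.det_apply]
  have h1 : ∀ σ ∈ (Finset.univ : Finset (Equiv.Perm (Fin b))),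
      SP (Equiv.Perm.sign σ • ∏ i, M (σ i) i) (s ^ b) ((s * h) ^ b) (b * D) := by
    intro σ _
    have h2 := SP.prod Finset.univ (fun i => M (σ i) i) (fun i _ => hM (σ i) i)
    rw [Finset.card_univ, Fintype.card_fin] at h2
    rcases Int.units_eq_one_or (Equiv.Perm.sign σ) with h3 | h3
    · rw [h3, one_smul]; exact h2
    · rw [h3, Units.neg_smul, one_smul]; exact h2.neg
  have h2 := SP.sum Finset.univ _ h1
  rw [Finset.card_univ, Fintype.card_perm, Fintype.card_fin] at h2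
  exact h2

theorem SP.X_pow_mul {p : ℤ[X]} {s h D : ℕ} (hp : SP p s h D) (i : ℕ) : SP (X ^ i * p) s h (i + D) := by
  refine ⟨?_, fun n => ?_, ?_⟩
  · have h1 := card_support_mul_le (p := (X : ℤ[X]) ^ i) (q := p)
    have h2 : ((X : ℤ[X]) ^ i).support.card ≤ 1 := by
      have := card_support_C_mul_X_pow_le_one (c := (1 : ℤ)) (n := i)
      simpa using this
    calc (X ^ i * p).support.card ≤ ((X : ℤ[X]) ^ i).support.card * p.support.card := h1
      _ ≤ 1 * s := Nat.mul_le_mul h2 hp.1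
      _ = s := one_mul s
  · rw [coeff_X_pow_mul']
    split_ifs
    · exact hp.2.1 _
    · rw [abs_zero]; positivity
  · refine natDegree_mul_le.trans (add_le_add ?_ hp.2.2)
    exact natDegree_X_pow_le i

/-- value of a sparse polynomial -/
theorem SP.eval_le {p : ℤ[X]} {s h D : ℕ} (hp : SP p s h D) (y : ℝ) {Y : ℝ} (hY : 1 ≤ Y) (hy : |y| ≤ Y) :
    |aeval y p| ≤ s * h * Y ^ D := by
  rw [aeval_def, eval₂_eq_sum, Polynomial.sum_def]
  refine (Finset.abs_sum_le_sum_abs _ _).trans ?_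
  have h1 : ∀ i ∈ p.support, |(algebraMap ℤ ℝ) (p.coeff i) * y ^ i| ≤ h * Y ^ D := by
    intro i hi
    rw [abs_mul, abs_pow]
    have h2 : |(algebraMap ℤ ℝ) (p.coeff i)| ≤ (h : ℝ) := by
      have := hp.2.1 i
      have h3 : ((|p.coeff i| : ℤ) : ℝ) ≤ ((h : ℤ) : ℝ) := by exact_mod_cast this
      simpa using h3
    have h3 : |y| ^ i ≤ Y ^ D := by
      calc |y| ^ i ≤ Y ^ i := pow_le_pow_left₀ (abs_nonneg _) hy i
        _ ≤ Y ^ D := pow_le_pow_right₀ hY ((le_natDegree_of_mem_supp _ hi).trans hp.2.2)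
    exact mul_le_mul h2 h3 (by positivity) (by positivity)
  refine (Finset.sum_le_sum h1).trans ?_
  rw [Finset.sum_const, nsmul_eq_mul, mul_assoc]
  apply mul_le_mul_of_nonneg_right _ (by positivity)
  exact_mod_cast hp.1

/-- the sections of a polynomial modulo `b` -/
noncomputable def sec (b j : ℕ) (f : ℤ[X]) : ℤ[X] := ∑ n ∈ range (f.natDegree + 1), monomial n (f.coeff (n * b + j))

theorem coeff_sec {b : ℕ} (hb : 1 ≤ b) (j : ℕ) (f : ℤ[X]) (n : ℕ) : (sec b j f).coeff n = f.coeff (n * b + j) := by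
  unfold sec
  rw [finset_sum_coeff]
  simp_rw [coeff_monomial]
  rw [Finset.sum_ite_eq' (range (f.natDegree + 1)) n]
  split_ifs with h
  · rfl
  · rw [Finset.mem_range, not_lt] at h
    rw [coeff_eq_zero_of_natDegree_lt]
    have : n ≤ n * b := Nat.le_mul_of_pos_right n hb
    omega

theorem SP.sec {b : ℕ} (hb : 1 ≤ b) (j : ℕ) {f : ℤ[X]} {s h D : ℕ} (hf : SP f s h D) : SP (sec b j f) s h D := by
  refine ⟨?_, fun n => ?_, ?_⟩
  · refine le_trans ?_ hf.1
    refine Finset.card_le_card_of_injOn (fun n => n * b + j) ?_ ?_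
    · intro n hn
      rw [Finset.mem_coe, mem_support_iff, coeff_sec hb] at hn
      rw [Finset.mem_coe, mem_support_iff]
      exact hn
    · intro n _ m _ hnm
      simp only at hnm
      have : n * b = m * b := by omega
      exact Nat.eq_of_mul_eq_mul_right hb this
  · rw [coeff_sec hb]
    exact hf.2.1 _
  · refine le_trans ?_ hf.2.2
    unfold KX.sec
    apply natDegree_sum_le_of_forall_le
    intro n hn
    refine (natDegree_monomial_le _).trans ?_
    rw [Finset.mem_range] at hn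
    omega

theorem coeff_mix {b : ℕ} (hb : 0 < b) (g : Fin b → ℤ[X]) (N : ℕ) :
    (∑ j : Fin b, X ^ (j : ℕ) * expand ℤ b (g j)).coeff N = (g ⟨N % b, Nat.mod_lt N hb⟩).coeff (N / b) := by
  rw [finset_sum_coeff, Finset.sum_eq_single (⟨N % b, Nat.mod_lt N hb⟩ : Fin b)]
  · rw [coeff_X_pow_mul', if_pos (Nat.mod_le N b), coeff_expand hb]
    have h1 : N - N % b = b * (N / b) := by
      have := Nat.div_add_mod N b
      omega
    simp only [h1]
    rw [if_pos (Dvd.intro _ rfl), Nat.mul_div_cancel_left _ hb]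
  · intro j _ hj
    rw [coeff_X_pow_mul']
    split_ifs with h1
    · rw [coeff_expand hb, if_neg]
      intro h2
      apply hj
      apply Fin.ext
      show (j : ℕ) = N % b
      obtain ⟨c, hc⟩ := h2
      have h3 : N = j + b * c := by omega
      rw [h3, Nat.add_mul_mod_self_left, Nat.mod_eq_of_lt j.2]
    · rfl
  · intro h
    exact absurd (Finset.mem_univ _) h

theorem decomp {b : ℕ} (hb : 0 < b) (f : ℤ[X]) : f = ∑ j : Fin b, X ^ (j : ℕ) * expand ℤ b (sec b j f) := by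
  ext N
  rw [coeff_mix hb, coeff_sec hb]
  congr 1
  have := Nat.div_add_mod N b
  rw [mul_comm] at this
  exact this.symm

/-- the matrix of the multiplication by `P` in the basis `1, X, ..., X^(b-1)` over `ℤ[X^b]` -/
noncomputable def mM (b : ℕ) (P : ℤ[X]) : Matrix (Fin b) (Fin b) ℤ[X] := fun i j => sec b j (X ^ (i : ℕ) * P)

theorem det_ne {b : ℕ} (hb : 0 < b) {P : ℤ[X]} (hP : P ≠ 0) : (mM b P).det ≠ 0 := by
  intro h0
  rw [← Matrix.exists_vecMul_eq_zero_iff] at h0
  obtain ⟨u, hu0, hu⟩ := h0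
  have h1 : (∑ i : Fin b, X ^ (i : ℕ) * expand ℤ b (u i)) * P = 0 := by
    have h2 : (∑ i : Fin b, X ^ (i : ℕ) * expand ℤ b (u i)) * P =
        ∑ j : Fin b, X ^ (j : ℕ) * expand ℤ b (∑ i : Fin b, u i * mM b P i j) := by
      rw [Finset.sum_mul]
      have h3 : ∀ i : Fin b, X ^ (i : ℕ) * expand ℤ b (u i) * P =
          ∑ j : Fin b, X ^ (j : ℕ) * (expand ℤ b (u i) * expand ℤ b (mM b P i j)) := by
        intro i
        calc X ^ (i : ℕ) * expand ℤ b (u i) * P = expand ℤ b (u i) * (X ^ (i : ℕ) * P) := by ring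
          _ = expand ℤ b (u i) * ∑ j : Fin b, X ^ (j : ℕ) * expand ℤ b (sec b j (X ^ (i : ℕ) * P)) := by
              rw [← decomp hb]
          _ = _ := by
              rw [Finset.mul_sum]
              refine Finset.sum_congr rfl fun j _ => ?_
              unfold mM
              ring
      simp_rw [h3]
      rw [Finset.sum_comm]
      refine Finset.sum_congr rfl fun j _ => ?_
      rw [map_sum, Finset.mul_sum]
      refine Finset.sum_congr rfl fun i _ => ?_
      rw [map_mul]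
    rw [h2]
    refine Finset.sum_eq_zero fun j _ => ?_
    have h4 := congrFun hu j
    simp only [Matrix.vecMul, dotProduct, Pi.zero_apply] at h4
    rw [h4, map_zero, mul_zero]
  have h2 := (mul_eq_zero.1 h1).resolve_right hP
  apply hu0
  funext i
  ext n
  have h3 := coeff_mix hb u (b * n + i)
  rw [h2, coeff_zero] at h3
  have h4 : (b * n + (i : ℕ)) % b = i := by rw [Nat.mul_add_mod, Nat.mod_eq_of_lt i.2]
  have h5 : (b * n + (i : ℕ)) / b = n := by
    rw [Nat.mul_add_div hb, Nat.div_eq_of_lt i.2, add_zero]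
  rw [h5] at h3
  have h6 : (⟨(b * n + (i : ℕ)) % b, Nat.mod_lt _ hb⟩ : Fin b) = i := Fin.ext h4
  rw [h6] at h3
  rw [Pi.zero_apply, coeff_zero, ← h3]

/-- the value of the norm -/
theorem det_val {b : ℕ} (hb : 0 < b) (P : ℤ[X]) {s h D : ℕ} (hP : SP P s h D) (hs : 1 ≤ s) (hh : 1 ≤ h) {x Y : ℝ}
    (hY : 1 ≤ Y) (hx : |x| ≤ Y) (hxb : |x ^ b| ≤ Y) :
    |aeval (x ^ b) (mM b P).det| ≤ |aeval x P| * (b * (b ! * (s * h * Y ^ (b + D)) ^ b * Y ^ b)) := by
  set K : ℝ := s * h * Y ^ (b + D) with hK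
  have hs1 : (1 : ℝ) ≤ s := by exact_mod_cast hs
  have hh1 : (1 : ℝ) ≤ h := by exact_mod_cast hh
  have hK1 : 1 ≤ K := one_le_mul_of_one_le_of_one_le (one_le_mul_of_one_le_of_one_le hs1 hh1) (one_le_pow₀ hY)
  set Mr : Matrix (Fin b) (Fin b) ℝ := fun i j => aeval (x ^ b) (mM b P i j) with hMr
  set v : Fin b → ℝ := fun j => x ^ (j : ℕ) with hv
  have hdet : aeval (x ^ b) (mM b P).det = Mr.det := by
    have := RingHom.map_det (aeval (R := ℤ) (x ^ b)).toRingHom (mM b P)
    exact this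
  have hent : ∀ i j, |Mr i j| ≤ K := by
    intro i j
    have h1 := (SP.sec (Nat.succ_le_of_lt hb) (j : ℕ) (hP.X_pow_mul i)).eval_le (x ^ b) hY hxb
    refine h1.trans ?_
    apply mul_le_mul_of_nonneg_left _ (by positivity)
    exact pow_le_pow_right₀ hY (by have := i.2; omega)
  have heig : Mr.mulVec v = fun i => aeval x P * v i := by
    funext i
    simp only [Matrix.mulVec, dotProduct]
    have h1 := congrArg (aeval x) (decomp hb (X ^ (i : ℕ) * P))
    rw [map_mul, map_pow, aeval_X, map_sum] at h1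
    rw [hMr, hv]
    simp only
    rw [mul_comm, h1]
    refine Finset.sum_congr rfl fun j _ => ?_
    rw [map_mul, map_pow, aeval_X, expand_aeval, mul_comm]
    rfl
  have hadj : ∀ i j, |Mr.adjugate i j| ≤ b ! * K ^ b := by
    intro i j
    rw [Matrix.adjugate_apply]
    have h1 := Matrix.det_le (A := Mr.updateRow j (Pi.single i 1)) (abv := AbsoluteValue.abs) (x := K) (by
      intro i' j'
      show |Mr.updateRow j (Pi.single i 1) i' j'| ≤ K
      by_cases hi : i' = j
      · rw [hi, Matrix.updateRow_self]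
        by_cases hj : j' = i
        · rw [hj, Pi.single_eq_same, abs_one]; exact hK1
        · rw [Pi.single_eq_of_ne hj, abs_zero]; linarith
      · rw [Matrix.updateRow_ne hi]
        exact hent i' j')
    rw [Fintype.card_fin, nsmul_eq_mul] at h1
    exact h1
  have hmain : Mr.det * v ⟨0, hb⟩ = aeval x P * ∑ j, Mr.adjugate ⟨0, hb⟩ j * v j := by
    have h1 : (Mr.adjugate).mulVec (Mr.mulVec v) = Mr.det • v := by
      rw [Matrix.mulVec_mulVec, Matrix.adjugate_mul, Matrix.smul_mulVec, Matrix.one_mulVec]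
    have h2 := congrFun h1 ⟨0, hb⟩
    rw [heig] at h2
    simp only [Matrix.mulVec, dotProduct, Pi.smul_apply, smul_eq_mul] at h2
    rw [← h2, Finset.mul_sum]
    refine Finset.sum_congr rfl fun j _ => ?_
    ring
  have hv0 : v ⟨0, hb⟩ = 1 := by rw [hv]; simp
  rw [hv0, mul_one] at hmain
  rw [hdet, hmain, abs_mul]
  apply mul_le_mul_of_nonneg_left _ (abs_nonneg _)
  refine (Finset.abs_sum_le_sum_abs _ _).trans ?_
  have h3 : ∀ j ∈ (Finset.univ : Finset (Fin b)), |Mr.adjugate ⟨0, hb⟩ j * v j| ≤ b ! * K ^ b * Y ^ b := by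
    intro j _
    rw [abs_mul]
    refine mul_le_mul (hadj _ _) ?_ (abs_nonneg _) (by positivity)
    rw [hv]
    simp only
    rw [abs_pow]
    calc |x| ^ (j : ℕ) ≤ Y ^ (j : ℕ) := pow_le_pow_left₀ (abs_nonneg _) hx _
      _ ≤ Y ^ b := pow_le_pow_right₀ hY j.2.le
  refine (Finset.sum_le_sum h3).trans ?_
  rw [Finset.sum_const, Finset.card_univ, Fintype.card_fin, nsmul_eq_mul]

theorem SP.mono {p : ℤ[X]} {s h D D' : ℕ} (hp : SP p s h D) (hD : D ≤ D') : SP p s h D' :=
  ⟨hp.1, hp.2.1, hp.2.2.trans hD⟩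

/-- a nonzero polynomial has height at least one -/
theorem one_le_height {P : ℤ[X]} (hP : P ≠ 0) {H : ℕ} (hH : ∀ i, |P.coeff i| ≤ H) : 1 ≤ H := by
  by_contra hcon
  have hH0 : H = 0 := by omega
  apply hP
  ext i
  have h1 := hH i
  rw [hH0, Nat.cast_zero] at h1
  rw [coeff_zero]
  exact abs_nonpos_iff.1 h1

theorem half_le {H : ℕ} (hH : 1 ≤ H) (d : ℕ) : 1 / 2 ≤ (d : ℝ) + Real.log (1 + H) := by
  have hH1 : (1 : ℝ) ≤ H := by exact_mod_cast hH
  have h1 : Real.log 2 ≤ Real.log (1 + H) := Real.log_le_log (by norm_num) (by linarith)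
  have h2 := Real.log_two_gt_d9
  have h3 : (0 : ℝ) ≤ d := Nat.cast_nonneg d
  linarith

/-- roots -/
theorem smeas_root {x : ℝ} {b : ℕ} (hb : 1 ≤ b) (h : SMeas (x ^ b)) : SMeas x := by
  intro k
  obtain ⟨A, C, hC, hA⟩ := h (b ! * (k + 1) ^ b)
  set Y : ℝ := 1 + |x| + |x ^ b| with hY
  have hY1 : 1 ≤ Y := by
    have h1 := abs_nonneg x
    have h2 := abs_nonneg (x ^ b)
    linarith
  have hxY : |x| ≤ Y := by
    have h2 := abs_nonneg (x ^ b)
    linarith
  have hxbY : |x ^ b| ≤ Y := by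
    have h1 := abs_nonneg x
    linarith
  have hY0 : 0 < Y := by linarith
  have hlY : 0 ≤ Real.log Y := Real.log_nonneg hY1
  have hb0 : (0 : ℝ) < b := by exact_mod_cast hb
  have hb1 : (1 : ℝ) ≤ b := by exact_mod_cast hb
  have hlb : 0 ≤ Real.log b := Real.log_nonneg hb1
  have hf0 : (0 : ℝ) < (b ! : ℝ) := by exact_mod_cast Nat.factorial_pos b
  have hf1 : (1 : ℝ) ≤ (b ! : ℝ) := by exact_mod_cast Nat.factorial_pos b
  have hlf : 0 ≤ Real.log (b ! : ℝ) := Real.log_nonneg hf1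
  have hk1 : (1 : ℝ) ≤ (k + 1 : ℕ) := by push_cast; linarith [(Nat.cast_nonneg k : (0 : ℝ) ≤ k)]
  have hk0 : (0 : ℝ) < (k + 1 : ℕ) := by linarith
  have hlk : 0 ≤ Real.log (k + 1 : ℕ) := Real.log_nonneg hk1
  set c0 : ℝ := (b : ℝ) * b + 1 + Real.log (b ! : ℝ) + b * Real.log (k + 1 : ℕ) with hc0
  have hc00 : 0 ≤ c0 := by
    have h1 := mul_nonneg hb0.le hlk
    have h2 := mul_nonneg hb0.le hb0.le
    linarith
  set c1 : ℝ := b + 2 * c0 with hc1
  have hc10 : 0 < c1 := by linarith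
  set c0' : ℝ := Real.log b + Real.log (b ! : ℝ) + b * Real.log (k + 1 : ℕ) + b * b * Real.log Y + b * Real.log Y
    with hc0'
  have hc00' : 0 ≤ c0' := by
    have h1 := mul_nonneg hb0.le hlk
    have h2 := mul_nonneg (mul_nonneg hb0.le hb0.le) hlY
    have h3 := mul_nonneg hb0.le hlY
    linarith
  set c2 : ℝ := b + b * Real.log Y + 2 * c0' with hc2
  have hc20 : 0 ≤ c2 := by
    have h3 := mul_nonneg hb0.le hlY
    linarith
  refine ⟨A + 1, 2 * (C * c1 ^ A) + 2 ^ A * c2, ?_, ?_⟩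
  · have h1 : 0 < C * c1 ^ A := mul_pos hC (pow_pos hc10 A)
    have h2 : 0 ≤ (2 : ℝ) ^ A * c2 := mul_nonneg (by positivity) hc20
    linarith
  intro d H P hP hdeg hcard hcoef
  have hH := one_le_height hP hcoef
  have hH1 : (1 : ℝ) ≤ H := by exact_mod_cast hH
  have hZ0 := half_le hH d
  set y : ℝ := Real.log (1 + H) with hy
  set Z : ℝ := (d : ℝ) + y with hZ
  have hd0 : (0 : ℝ) ≤ d := Nat.cast_nonneg d
  have hlH : Real.log H ≤ y := Real.log_le_log (by linarith) (by linarith)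
  have hlH0 : 0 ≤ Real.log H := Real.log_nonneg hH1
  have hSP : SP P (k + 1) H d := ⟨hcard, hcoef, hdeg⟩
  have hR : SP (mM b P).det (b ! * (k + 1) ^ b) (b ! * ((k + 1) * H) ^ b) (b * (b + d)) := by
    apply SP.det
    intro i j
    exact SP.mono (SP.sec hb (j : ℕ) (hSP.X_pow_mul i)) (by have := i.2; omega)
  have h1 := hA (b * (b + d)) (b ! * ((k + 1) * H) ^ b) (mM b P).det (det_ne hb hP) hR.2.2 (hR.1.trans (Nat.le_succ _))
    hR.2.1
  have h2 := det_val hb P hSP (Nat.succ_le_succ (Nat.zero_le k)) hH hY1 hxY hxbY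
  set F : ℝ := b * (b ! * (((k + 1 : ℕ) : ℝ) * H * Y ^ (b + d)) ^ b * Y ^ b) with hF
  have hF0 : 0 < F := by positivity
  have hlF : Real.log F ≤ c2 * Z := by
    have e1 : Real.log F = Real.log b + Real.log (b ! : ℝ) + b * Real.log (k + 1 : ℕ) + b * Real.log H +
        b * ((b + d) * Real.log Y) + b * Real.log Y := by
      rw [hF, Real.log_mul hb0.ne' (by positivity), Real.log_mul (by positivity) (by positivity),
        Real.log_mul hf0.ne' (by positivity), Real.log_pow, Real.log_pow, Real.log_mul (by positivity) (by positivity),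
        Real.log_mul hk0.ne' (by positivity), Real.log_pow]
      push_cast
      ring
    have e2 : Real.log F = c0' + b * Real.log H + b * Real.log Y * d := by rw [e1, hc0']; ring
    rw [e2]
    have h3 : c0' ≤ 2 * c0' * Z := by
      have := mul_le_mul_of_nonneg_left hZ0 (by linarith : 0 ≤ 2 * c0')
      linarith
    have h4 : b * Real.log H ≤ b * y := mul_le_mul_of_nonneg_left hlH hb0.le
    have hy0 : 0 ≤ y := hlH0.trans hlH
    have h5 : b * y ≤ b * Z := mul_le_mul_of_nonneg_left (by linarith) hb0.le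
    have h6 : b * Real.log Y * d ≤ b * Real.log Y * Z :=
      mul_le_mul_of_nonneg_left (by linarith) (mul_nonneg hb0.le hlY)
    have e3 : c2 * Z = b * Z + b * Real.log Y * Z + 2 * c0' * Z := by rw [hc2]; ring
    rw [e3]
    linarith
  have hlD : ((b * (b + d) : ℕ) : ℝ) + Real.log (1 + ((b ! * ((k + 1) * H) ^ b : ℕ) : ℝ)) ≤ c1 * Z := by
    have hq : (1 : ℝ) ≤ ((b ! * ((k + 1) * H) ^ b : ℕ) : ℝ) := by
      have : 1 ≤ b ! * ((k + 1) * H) ^ b := Nat.succ_le_of_lt (by positivity)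
      exact_mod_cast this
    have h3 : Real.log (1 + ((b ! * ((k + 1) * H) ^ b : ℕ) : ℝ)) ≤
        Real.log (2 * ((b ! * ((k + 1) * H) ^ b : ℕ) : ℝ)) := Real.log_le_log (by linarith) (by linarith)
    have e1 : Real.log (2 * ((b ! * ((k + 1) * H) ^ b : ℕ) : ℝ)) =
        Real.log 2 + Real.log (b ! : ℝ) + b * Real.log (k + 1 : ℕ) + b * Real.log H := by
      rw [Nat.cast_mul, Nat.cast_pow, Nat.cast_mul (k + 1) H, Real.log_mul (by norm_num) (by positivity),
        Real.log_mul hf0.ne' (by positivity), Real.log_pow, Real.log_mul hk0.ne' (by positivity)]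
      ring
    have h4 : Real.log 2 ≤ 1 := by
      have := Real.log_two_lt_d9
      linarith
    have h5 : b * Real.log H ≤ b * y := mul_le_mul_of_nonneg_left hlH hb0.le
    have h6 : c0 ≤ 2 * c0 * Z := by
      have := mul_le_mul_of_nonneg_left hZ0 (by linarith : 0 ≤ 2 * c0)
      linarith
    have e2 : ((b * (b + d) : ℕ) : ℝ) = b * b + b * d := by push_cast; ring
    have e3 : c1 * Z = b * d + b * y + 2 * c0 * Z := by rw [hc1, hZ]; ring
    rw [e2, e3]
    rw [e1] at h3
    linarith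
  have hD0 : 0 ≤ ((b * (b + d) : ℕ) : ℝ) + Real.log (1 + ((b ! * ((k + 1) * H) ^ b : ℕ) : ℝ)) := by
    have h3 : 0 ≤ Real.log (1 + ((b ! * ((k + 1) * H) ^ b : ℕ) : ℝ)) := Real.log_nonneg (by
      have : (0 : ℝ) ≤ ((b ! * ((k + 1) * H) ^ b : ℕ) : ℝ) := Nat.cast_nonneg _
      linarith)
    have h4 : (0 : ℝ) ≤ ((b * (b + d) : ℕ) : ℝ) := Nat.cast_nonneg _
    linarith
  have h3 : Real.exp (-(C * (c1 * Z) ^ A)) ≤ |aeval x P| * F := by
    refine le_trans ?_ (h1.trans h2)
    apply Real.exp_le_exp.2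
    apply neg_le_neg
    exact mul_le_mul_of_nonneg_left (pow_le_pow_left₀ hD0 hlD A) hC.le
  have h4 : F ≤ Real.exp (c2 * Z) := by
    rw [← Real.exp_log hF0]
    exact Real.exp_le_exp.2 hlF
  have h5 : Real.exp (-(C * (c1 * Z) ^ A)) ≤ |aeval x P| * Real.exp (c2 * Z) :=
    h3.trans (mul_le_mul_of_nonneg_left h4 (abs_nonneg _))
  have h6 : Real.exp (-(C * (c1 * Z) ^ A) - c2 * Z) ≤ |aeval x P| := by
    rw [Real.exp_sub, div_le_iff₀ (Real.exp_pos _)]
    exact h5
  refine le_trans (Real.exp_le_exp.2 ?_) h6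
  have h2Z : 1 ≤ 2 * Z := by linarith
  have hZp : 0 ≤ Z ^ A := by positivity
  have h7 : Z ^ A ≤ 2 * Z ^ (A + 1) := by
    have := mul_le_mul_of_nonneg_left h2Z hZp
    calc Z ^ A = Z ^ A * 1 := (mul_one _).symm
      _ ≤ Z ^ A * (2 * Z) := this
      _ = 2 * Z ^ (A + 1) := by ring
  have h8 : Z ≤ 2 ^ A * Z ^ (A + 1) := by
    have h9 : 1 ≤ (2 * Z) ^ A := one_le_pow₀ h2Z
    have h10 := mul_le_mul_of_nonneg_left h9 (by linarith : 0 ≤ Z)
    calc Z = Z * 1 := (mul_one _).symm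
      _ ≤ Z * (2 * Z) ^ A := h10
      _ = 2 ^ A * Z ^ (A + 1) := by rw [mul_pow]; ring
  have h9 : C * (c1 * Z) ^ A ≤ 2 * (C * c1 ^ A) * Z ^ (A + 1) := by
    have h10 : 0 ≤ C * c1 ^ A := by positivity
    have := mul_le_mul_of_nonneg_left h7 h10
    calc C * (c1 * Z) ^ A = C * c1 ^ A * Z ^ A := by rw [mul_pow]; ring
      _ ≤ C * c1 ^ A * (2 * Z ^ (A + 1)) := this
      _ = _ := by ring
  have h10 : c2 * Z ≤ 2 ^ A * c2 * Z ^ (A + 1) := by
    have := mul_le_mul_of_nonneg_left h8 hc20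
    calc c2 * Z ≤ c2 * (2 ^ A * Z ^ (A + 1)) := this
      _ = _ := by ring
  have e4 : (2 * (C * c1 ^ A) + 2 ^ A * c2) * Z ^ (A + 1) = 2 * (C * c1 ^ A) * Z ^ (A + 1) + 2 ^ A * c2 * Z ^ (A + 1) := by
    ring
  rw [e4]
  linarith

/-- powers -/
theorem smeas_pow {x : ℝ} (h : SMeas x) {a : ℕ} (ha : 1 ≤ a) : SMeas (x ^ a) := by
  intro k
  obtain ⟨A, C, hC, hA⟩ := h k
  have ha0 : (0 : ℝ) < a := by exact_mod_cast ha
  have ha1 : (1 : ℝ) ≤ a := by exact_mod_cast ha
  refine ⟨A, C * a ^ A, by positivity, ?_⟩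
  intro d H P hP hdeg hcard hcoef
  have hH := one_le_height hP hcoef
  have hH1 : (1 : ℝ) ≤ H := by exact_mod_cast hH
  have hne : expand ℤ a P ≠ 0 := (expand_ne_zero (by omega)).2 hP
  have hdeg' : (expand ℤ a P).natDegree ≤ a * d := by
    rw [natDegree_expand, mul_comm]
    exact Nat.mul_le_mul_left a hdeg
  have hcard' : (expand ℤ a P).support.card ≤ k + 1 := by
    refine le_trans ?_ hcard
    have hsub : (expand ℤ a P).support ⊆ P.support.image (fun n => n * a) := by
      intro n hn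
      rw [mem_support_iff, coeff_expand (by omega)] at hn
      split_ifs at hn with h1
      · rw [Finset.mem_image]
        exact ⟨n / a, mem_support_iff.2 hn, Nat.div_mul_cancel h1⟩
      · exact absurd rfl hn
    exact (Finset.card_le_card hsub).trans Finset.card_image_le
  have hcoef' : ∀ i, |(expand ℤ a P).coeff i| ≤ H := by
    intro i
    rw [coeff_expand (by omega)]
    split_ifs
    · exact hcoef _
    · rw [abs_zero]; positivity
  have h1 := hA (a * d) H (expand ℤ a P) hne hdeg' hcard' hcoef'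
  rw [expand_aeval] at h1
  refine le_trans (Real.exp_le_exp.2 ?_) h1
  apply neg_le_neg
  have hy0 : 0 ≤ Real.log (1 + (H : ℝ)) := Real.log_nonneg (by linarith)
  have hd0 : (0 : ℝ) ≤ d := Nat.cast_nonneg d
  have h2 : ((a * d : ℕ) : ℝ) + Real.log (1 + H) ≤ a * ((d : ℝ) + Real.log (1 + H)) := by
    have := mul_le_mul_of_nonneg_right ha1 hy0
    push_cast
    linarith
  have h3 := pow_le_pow_left₀ (by positivity) h2 A
  calc C * (((a * d : ℕ) : ℝ) + Real.log (1 + H)) ^ A ≤ C * (a * ((d : ℝ) + Real.log (1 + H))) ^ A :=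
        mul_le_mul_of_nonneg_left h3 hC.le
    _ = _ := by rw [mul_pow]; ring

/-- rational powers -/
theorem smeas_rpow {θ : ℝ} (hθ : 0 < θ) (h : SMeas θ) {a b : ℕ} (ha : 1 ≤ a) (hb : 1 ≤ b) :
    SMeas (θ ^ ((a : ℝ) / b)) := by
  have hb0 : (b : ℝ) ≠ 0 := by
    have : (1 : ℝ) ≤ b := by exact_mod_cast hb
    linarith
  apply smeas_root hb
  have e1 : (θ ^ ((a : ℝ) / b)) ^ b = θ ^ a := by
    rw [← Real.rpow_natCast, ← Real.rpow_mul hθ.le, div_mul_cancel₀ _ hb0, Real.rpow_natCast]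
  rw [e1]
  exact smeas_pow h ha

end Pool.Agent.Helper95.KX
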