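import Pool.Agent.Helper95.KX.Closure

/-!
# The measure for sparse polynomials: inverses and algebraic multiples
-/

set_option autoImplicit false

namespace Pool.Agent.Helper95.KX

open Polynomial Finset
open scoped Nat

theorem smeas_transfer {θ x : ℝ} (h : SMeas θ)
    (hT : ∀ k : ℕ, ∃ (k' : ℕ) (c1 c2 : ℝ), 0 < c1 ∧ 0 ≤ c2 ∧ ∀ (d H : ℕ) (P : ℤ[X]), P ≠ 0 → P.natDegree ≤ d →
      P.support.card ≤ k + 1 → (∀ i, |P.coeff i| ≤ H) → 1 ≤ H → ∃ (D' H' : ℕ) (Q : ℤ[X]), Q ≠ 0 ∧ Q.natDegree ≤ D' ∧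
        Q.support.card ≤ k' + 1 ∧ (∀ i, |Q.coeff i| ≤ H') ∧
        (D' : ℝ) + Real.log (1 + H') ≤ c1 * ((d : ℝ) + Real.log (1 + H)) ∧
        |aeval θ Q| ≤ |aeval x P| * Real.exp (c2 * ((d : ℝ) + Real.log (1 + H)))) : SMeas x := by
  intro k
  obtain ⟨k', c1, c2, hc10, hc20, hK⟩ := hT k
  obtain ⟨A, C, hC, hA⟩ := h k'
  refine ⟨A + 1, 2 * (C * c1 ^ A) + 2 ^ A * c2, ?_, ?_⟩
  · have h1 : 0 < C * c1 ^ A := mul_pos hC (pow_pos hc10 A)
    have h2 : 0 ≤ (2 : ℝ) ^ A * c2 := mul_nonneg (by positivity) hc20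
    linarith
  intro d H P hP hdeg hcard hcoef
  have hH := one_le_height hP hcoef
  have hZ0 := half_le hH d
  obtain ⟨D', H', Q, hQ, hQd, hQc, hQh, hlD, hval⟩ := hK d H P hP hdeg hcard hcoef hH
  have h1 := hA D' H' Q hQ hQd hQc hQh
  set Z : ℝ := (d : ℝ) + Real.log (1 + H) with hZ
  have hD0 : 0 ≤ (D' : ℝ) + Real.log (1 + H') := by
    have h3 : 0 ≤ Real.log (1 + (H' : ℝ)) := Real.log_nonneg (by
      have : (0 : ℝ) ≤ H' := Nat.cast_nonneg _
      linarith)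
    have h4 : (0 : ℝ) ≤ D' := Nat.cast_nonneg _
    linarith
  have h3 : Real.exp (-(C * (c1 * Z) ^ A)) ≤ |aeval x P| * Real.exp (c2 * Z) := by
    refine le_trans ?_ (h1.trans hval)
    apply Real.exp_le_exp.2
    apply neg_le_neg
    exact mul_le_mul_of_nonneg_left (pow_le_pow_left₀ hD0 hlD A) hC.le
  have h6 : Real.exp (-(C * (c1 * Z) ^ A) - c2 * Z) ≤ |aeval x P| := by
    rw [Real.exp_sub, div_le_iff₀ (Real.exp_pos _)]
    exact h3
  refine le_trans (Real.exp_le_exp.2 ?_) h6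
  have h2Z : 1 ≤ 2 * Z := by linarith
  have hZp : 0 ≤ Z ^ A := by positivity
  have h7 : Z ^ A ≤ 2 * Z ^ (A + 1) := by
    have := mul_le_mul_of_nonneg_left h2Z hZp
    calc Z ^ A = Z ^ A * 1 := (mul_one _).symm
      _ ≤ Z ^ A * (2 * Z) := this
      _ = 2 * Z ^ (A + 1) := by ring
  have h8 : Z ≤ 2 ^ A * Z ^ (A + 1) := by
    have h9 : 1 ≤ (2 * Z) ^ A := one_le_pow₀ h2Z
    have h10 := mul_le_mul_of_nonneg_left h9 (by linarith : 0 ≤ Z)
    calc Z = Z * 1 := (mul_one _).symm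
      _ ≤ Z * (2 * Z) ^ A := h10
      _ = 2 ^ A * Z ^ (A + 1) := by rw [mul_pow]; ring
  have h9 : C * (c1 * Z) ^ A ≤ 2 * (C * c1 ^ A) * Z ^ (A + 1) := by
    have h10 : 0 ≤ C * c1 ^ A := by positivity
    have := mul_le_mul_of_nonneg_left h7 h10
    calc C * (c1 * Z) ^ A = C * c1 ^ A * Z ^ A := by rw [mul_pow]; ring
      _ ≤ C * c1 ^ A * (2 * Z ^ (A + 1)) := this
      _ = _ := by ring
  have h10 : c2 * Z ≤ 2 ^ A * c2 * Z ^ (A + 1) := by
    have := mul_le_mul_of_nonneg_left h8 hc20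
    calc c2 * Z ≤ c2 * (2 ^ A * Z ^ (A + 1)) := this
      _ = _ := by ring
  have e4 : (2 * (C * c1 ^ A) + 2 ^ A * c2) * Z ^ (A + 1) = 2 * (C * c1 ^ A) * Z ^ (A + 1) + 2 ^ A * c2 * Z ^ (A + 1) := by
    ring
  rw [e4]
  linarith

/-- inverses -/
theorem smeas_inv {x : ℝ} (hx : x ≠ 0) (h : SMeas x) : SMeas x⁻¹ := by
  apply smeas_transfer h
  intro k
  set Y : ℝ := 1 + |x| with hY
  have hY1 : 1 ≤ Y := by linarith [abs_nonneg x]
  have hxY : |x| ≤ Y := by linarith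
  have hlY : 0 ≤ Real.log Y := Real.log_nonneg hY1
  refine ⟨k, 1, Real.log Y, one_pos, hlY, ?_⟩
  intro d H P hP hdeg hcard hcoef hH
  refine ⟨d, H, P.reverse, ?_, (reverse_natDegree_le P).trans hdeg, ?_, ?_, ?_, ?_⟩
  · rw [Ne, reverse_eq_zero]; exact hP
  · refine le_trans ?_ hcard
    rw [reverse, reflect_support]
    exact Finset.card_image_le
  · intro i
    rw [coeff_reverse]
    exact hcoef _
  · rw [one_mul]
  · haveI : Invertible (x⁻¹) := invertibleOfNonzero (inv_ne_zero hx)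
    have h1 := eval₂_reverse_mul_pow (algebraMap ℤ ℝ) (x⁻¹) P
    rw [invOf_eq_inv, inv_inv, ← aeval_def, ← aeval_def] at h1
    have h2 : aeval x P.reverse = aeval x⁻¹ P * x ^ P.natDegree := by
      rw [← h1, mul_assoc, ← mul_pow, inv_mul_cancel₀ hx, one_pow, mul_one]
    rw [h2, abs_mul, abs_pow]
    apply mul_le_mul_of_nonneg_left _ (abs_nonneg _)
    have hH1 : (1 : ℝ) ≤ H := by exact_mod_cast hH
    have hlH : 0 ≤ Real.log (1 + (H : ℝ)) := Real.log_nonneg (by linarith)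
    calc |x| ^ P.natDegree ≤ Y ^ P.natDegree := pow_le_pow_left₀ (abs_nonneg _) hxY _
      _ ≤ Y ^ d := pow_le_pow_right₀ hY1 hdeg
      _ = Real.exp (Real.log Y * d) := by
          rw [mul_comm, Real.exp_nat_mul, Real.exp_log (by linarith)]
      _ ≤ Real.exp (Real.log Y * ((d : ℝ) + Real.log (1 + H))) := by
          apply Real.exp_le_exp.2
          exact mul_le_mul_of_nonneg_left (by linarith) hlY

theorem log_mul_pow_le {H m d : ℕ} (hH : 1 ≤ H) (hm : 1 ≤ m) :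
    Real.log (1 + ((H * m ^ d : ℕ) : ℝ)) ≤ Real.log (1 + H) + d * Real.log m := by
  have hH1 : (1 : ℝ) ≤ H := by exact_mod_cast hH
  have hm1 : (1 : ℝ) ≤ m := by exact_mod_cast hm
  have hmd : (1 : ℝ) ≤ (m : ℝ) ^ d := one_le_pow₀ hm1
  rw [← Real.log_pow, ← Real.log_mul (by positivity) (by positivity)]
  apply Real.log_le_log (by positivity)
  push_cast
  linarith

/-- division by integers -/
theorem smeas_div {x : ℝ} {m : ℤ} (hm : m ≠ 0) (h : SMeas (m * x)) : SMeas x := by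
  apply smeas_transfer h
  intro k
  have hm1 : 1 ≤ m.natAbs := Int.natAbs_pos.2 hm
  have hm1R : (1 : ℝ) ≤ (m.natAbs : ℝ) := by exact_mod_cast hm1
  have hl : 0 ≤ Real.log (m.natAbs : ℝ) := Real.log_nonneg hm1R
  refine ⟨k, 1 + Real.log (m.natAbs : ℝ), Real.log (m.natAbs : ℝ), by linarith, hl, ?_⟩
  intro d H P hP hdeg hcard hcoef hH
  have hH1 : (1 : ℝ) ≤ H := by exact_mod_cast hH
  have hlH : 0 ≤ Real.log (1 + (H : ℝ)) := Real.log_nonneg (by linarith)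
  have hd0 : (0 : ℝ) ≤ d := Nat.cast_nonneg d
  refine ⟨d, H * m.natAbs ^ d, scaleRoots P m, ?_, ?_, ?_, ?_, ?_, ?_⟩
  · exact scaleRoots_ne_zero hP m
  · rw [natDegree_scaleRoots]; exact hdeg
  · exact (Finset.card_le_card (support_scaleRoots_le P m)).trans hcard
  · intro i
    rw [coeff_scaleRoots, abs_mul, abs_pow]
    push_cast
    apply mul_le_mul (hcoef i) _ (by positivity) (by positivity)
    have h1 : (1 : ℤ) ≤ |m| := Int.one_le_abs hm
    exact pow_le_pow_right₀ h1 (by omega)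
  · have h1 := log_mul_pow_le (d := d) hH hm1
    have h2 : 0 ≤ Real.log (m.natAbs : ℝ) * Real.log (1 + (H : ℝ)) := mul_nonneg hl hlH
    have e1 : (1 + Real.log (m.natAbs : ℝ)) * ((d : ℝ) + Real.log (1 + H)) =
        d + Real.log (1 + H) + d * Real.log (m.natAbs : ℝ) + Real.log (m.natAbs : ℝ) * Real.log (1 + (H : ℝ)) := by ring
    rw [e1]
    linarith
  · have h1 := scaleRoots_eval₂_mul (p := P) (algebraMap ℤ ℝ) x m
    have e0 : (algebraMap ℤ ℝ) m = (m : ℝ) := rfl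
    rw [e0, ← aeval_def, ← aeval_def] at h1
    rw [h1, abs_mul, abs_pow, mul_comm]
    apply mul_le_mul_of_nonneg_left _ (abs_nonneg _)
    have h3 : |(m : ℝ)| = (m.natAbs : ℝ) := by
      rw [Nat.cast_natAbs]
      push_cast
      rfl
    rw [h3]
    calc (m.natAbs : ℝ) ^ P.natDegree ≤ (m.natAbs : ℝ) ^ d := pow_le_pow_right₀ hm1R hdeg
      _ = Real.exp (Real.log (m.natAbs : ℝ) * d) := by
          rw [mul_comm, Real.exp_nat_mul, Real.exp_log (by linarith)]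
      _ ≤ Real.exp (Real.log (m.natAbs : ℝ) * ((d : ℝ) + Real.log (1 + H))) := by
          apply Real.exp_le_exp.2
          exact mul_le_mul_of_nonneg_left (by linarith) hl

end Pool.Agent.Helper95.KX
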